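import Mathlib

set_option autoImplicit false

namespace Pool.Agent.Results.MP_ad0c0d_al.Counter

/-- the circulant matrix of size `m + 1` with first row `v`, each row shifted one place right -/
def cir {R : Type} {m : ℕ} (v : Fin (m + 1) → R) : Matrix (Fin (m + 1)) (Fin (m + 1)) R :=
  Matrix.of fun i j => v (j - i)

/-- the number of circulant matrices of size `m + 1` with determinant `a` -/
noncomputable def cnt (R : Type) [CommRing R] (m : ℕ) (a : R) : ℕ :=
  Nat.card {v : Fin (m + 1) → R // (cir v).det = a}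

/-- a finite commutative ring with `1 ≠ 0` whose ideals are totally ordered -/
def ChainRing (R : Type) [CommRing R] : Prop :=
  Finite R ∧ Nontrivial R ∧ ∀ I J : Ideal R, I ≤ J ∨ J ≤ I

/-- `e` is the least positive integer with `g ^ e = 0` -/
def NilIndex {R : Type} [CommRing R] (g : R) (e : ℕ) : Prop :=
  IsLeast {k : ℕ | 0 < k ∧ g ^ k = 0} e

abbrev D := DualNumber (ZMod 2)

instance : Fintype D := inferInstanceAs (Fintype (ZMod 2 × ZMod 2))
instance : DecidableEq D := inferInstanceAs (DecidableEq (ZMod 2 × ZMod 2))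

def g : D := ((0, 1) : ZMod 2 × ZMod 2)

lemma k1 : ∀ x y : D, (∃ z, z * x = y) ∨ ∃ z, z * y = x := by decide +kernel
lemma k2 : ∀ x : D, (∃ z, z * g = x) ∨ ∃ z, z * x = 1 := by decide +kernel
lemma k3 : ∀ z : D, z * g ≠ 1 := by decide +kernel
lemma k4 : (1 + g) * (1 + g) = 1 := by decide +kernel
lemma k5 : ∀ x y : D, x * x - y * y ≠ (1 + g) * g ^ 0 := by decide +kernel
lemma k6 : g ^ 2 = 0 ∧ g ^ 1 ≠ 0 := by decide +kernel

lemma det2 (v : Fin 2 → D) : (cir v).det = v 0 * v 0 - v 1 * v 1 := by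
  rw [Matrix.det_fin_two]
  rfl

theorem result : ∃ (R : Type) (_ : CommRing R) (γ : R) (e m s : ℕ) (b : Rˣ),
    ChainRing R ∧ (Ideal.span {γ}).IsMaximal ∧ NilIndex γ e ∧ s ≤ e ∧
      cnt R m (γ ^ s) ≠ cnt R m (b * γ ^ s) := by
  refine ⟨D, inferInstance, g, 2, 1, 0, ⟨1 + g, 1 + g, k4, k4⟩,
    ⟨inferInstance, inferInstance, fun I J => ?_⟩, ?_, ⟨⟨by norm_num, k6.1⟩, ?_⟩, by norm_num, ?_⟩
  · by_contra h
    rw [not_or, SetLike.not_le_iff_exists, SetLike.not_le_iff_exists] at h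
    obtain ⟨⟨x, hx, hx'⟩, y, hy, hy'⟩ := h
    rcases k1 x y with ⟨z, rfl⟩ | ⟨z, rfl⟩
    · exact hy' (I.mul_mem_left z hx)
    · exact hx' (J.mul_mem_left z hy)
  · refine Ideal.isMaximal_iff.2 ⟨fun h => ?_, fun J x _ hx hJ => ?_⟩
    · obtain ⟨z, hz⟩ := Ideal.mem_span_singleton'.1 h
      exact k3 z hz
    · rcases k2 x with h | ⟨z, hz⟩
      · exact absurd (Ideal.mem_span_singleton'.2 h) hx
      · exact hz ▸ J.mul_mem_left z hJ
  · rintro k ⟨h1, h2⟩
    by_contra h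
    obtain rfl : k = 1 := by omega
    exact k6.2 h2
  · have h1 : cnt D 1 ((1 + g) * g ^ 0) = 0 := by
      haveI : IsEmpty {v : Fin (1 + 1) → D // (cir v).det = (1 + g) * g ^ 0} :=
        ⟨fun v => k5 _ _ ((det2 v.1).symm.trans v.2)⟩
      exact Nat.card_of_isEmpty
    have h2 : 0 < cnt D 1 (g ^ 0) := by
      haveI : Nonempty {v : Fin (1 + 1) → D // (cir v).det = g ^ 0} :=
        ⟨⟨![1, 0], by rw [det2]; simp⟩⟩
      exact Nat.card_pos
    exact fun h => h2.ne' (h.trans h1)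

end Pool.Agent.Results.MP_ad0c0d_al.Counter
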